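import Pool.Agent.Helper29.CPB.Graded

/-!
# The implications B => C => C+ (Kleiman)
-/

namespace Pool.Agent.Helper29.CPB

universe u v

variable {F : Type u} [Field F] [CharZero F] (X : Variety.{u, v} F)

/-- Induction step: the projectors in the outer degrees give the next ones. -/
lemma kunneth_step (h : X.Lefschetz) (i : ℕ) (hi : i ≤ X.dim)
    (ih : ∀ j : ℕ, j < i → X.π (j : ℤ) ∈ X.corr 0 ∧ X.π (2 * (X.dim : ℤ) - j) ∈ X.corr 0) :
    X.π (i : ℤ) ∈ X.corr 0 ∧ X.π (2 * (X.dim : ℤ) - i) ∈ X.corr 0 := by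
  obtain ⟨θ, hθ, hθL⟩ := h i hi
  set a : Module.End F X.H := 1 - ∑ j ∈ Finset.range i, X.π (j : ℤ) with ha
  set b : Module.End F X.H := 1 - ∑ j ∈ Finset.range i, X.π (2 * (X.dim : ℤ) - j) with hb
  have ha0 : a ∈ X.corr 0 := (X.corr 0).sub_mem X.corr_one
    (X.corr_sum _ _ fun j hj => (ih j (Finset.mem_range.mp hj)).1)
  have hb0 : b ∈ X.corr 0 := (X.corr 0).sub_mem X.corr_one
    (X.corr_sum _ _ fun j hj => (ih j (Finset.mem_range.mp hj)).2)
  -- the action of `a` and `b` on homogeneous elements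
  have a_zero : ∀ (k : ℤ) (x : X.H), X.π k x = x → k < i → a x = 0 := by
    intro k x hx hk
    by_cases hk0 : 0 ≤ k
    · obtain ⟨j, rfl⟩ := Int.eq_ofNat_of_zero_le hk0
      have hj : j < i := by exact_mod_cast hk
      rw [ha, LinearMap.sub_apply, Module.End.one_apply, LinearMap.sum_apply,
        Finset.sum_eq_single j]
      · rw [hx, sub_self]
      · intro l _ hl
        exact X.π_apply_ne (by exact_mod_cast hl) hx
      · intro hn
        exact absurd (Finset.mem_range.mpr hj) hn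
    · rw [X.homog_zero (Or.inl (by omega)) hx, map_zero]
  have a_one : ∀ (k : ℤ) (x : X.H), X.π k x = x → (i : ℤ) ≤ k → a x = x := by
    intro k x hx hk
    rw [ha, LinearMap.sub_apply, Module.End.one_apply, LinearMap.sum_apply,
      Finset.sum_eq_zero, sub_zero]
    intro j hj
    have hj' := Finset.mem_range.mp hj
    exact X.π_apply_ne (by omega) hx
  have b_zero : ∀ (k : ℤ) (x : X.H), X.π k x = x → 2 * (X.dim : ℤ) - i < k → b x = 0 := by
    intro k x hx hk
    by_cases hk0 : k ≤ 2 * (X.dim : ℤ)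
    · obtain ⟨j, hj⟩ := Int.eq_ofNat_of_zero_le (a := 2 * (X.dim : ℤ) - k) (by omega)
      have hj' : j < i := by omega
      have hkj : k = 2 * (X.dim : ℤ) - j := by omega
      subst hkj
      rw [hb, LinearMap.sub_apply, Module.End.one_apply, LinearMap.sum_apply,
        Finset.sum_eq_single j]
      · rw [hx, sub_self]
      · intro l _ hl
        exact X.π_apply_ne (by omega) hx
      · intro hn
        exact absurd (Finset.mem_range.mpr hj') hn
    · rw [X.homog_zero (Or.inr (by omega)) hx, map_zero]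
  have b_one : ∀ (k : ℤ) (x : X.H), X.π k x = x → k ≤ 2 * (X.dim : ℤ) - i → b x = x := by
    intro k x hx hk
    rw [hb, LinearMap.sub_apply, Module.End.one_apply, LinearMap.sum_apply,
      Finset.sum_eq_zero, sub_zero]
    intro j hj
    have hj' := Finset.mem_range.mp hj
    exact X.π_apply_ne (by omega) hx
  -- the truncated operator
  have haθ : a * θ ∈ X.corr ((i : ℤ) - X.dim) :=
    X.corr_mul' (r := 0) (s := (i : ℤ) - X.dim) (by ring) ha0 hθ
  have hθ' : a * θ * b ∈ X.corr ((i : ℤ) - X.dim) :=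
    X.corr_mul' (r := (i : ℤ) - X.dim) (s := 0) (by ring) haθ hb0
  have θ_zero : ∀ (k : ℤ) (x : X.H), X.π k x = x → k ≠ 2 * (X.dim : ℤ) - i →
      (a * θ * b) x = 0 := by
    intro k x hx hk
    rw [Module.End.mul_apply, Module.End.mul_apply]
    rcases lt_or_gt_of_ne hk with hlt | hgt
    · rw [b_one k x hx hlt.le]
      exact a_zero _ _ (X.corr_homog hθ rfl hx) (by omega)
    · rw [b_zero k x hx hgt, map_zero, map_zero]
  have θ_self : ∀ x : X.H, X.π (2 * (X.dim : ℤ) - i) x = x → (a * θ * b) x = θ x := by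
    intro x hx
    rw [Module.End.mul_apply, Module.End.mul_apply, b_one _ x hx le_rfl]
    exact a_one _ _ (X.corr_homog hθ (j := i) (by ring) hx) le_rfl
  have hcast : (((X.dim - i : ℕ) : ℤ)) = (X.dim : ℤ) - i := by push_cast [Nat.cast_sub hi]; ring
  have hLp := X.Lpow_corr (X.dim - i)
  rw [hcast] at hLp
  have e1 : X.π (i : ℤ) = (a * θ * b) * X.L ^ (X.dim - i) := by
    apply X.ext_homog
    intro k x hx
    rw [Module.End.mul_apply]
    have hLx := X.corr_homog hLp (j := k + 2 * ((X.dim : ℤ) - i)) rfl hx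
    by_cases hk : k = i
    · subst hk
      rw [hx, θ_self _ (by rwa [show (i : ℤ) + 2 * ((X.dim : ℤ) - i) = 2 * (X.dim : ℤ) - i by ring]
        at hLx), hθL x hx]
    · rw [X.π_apply_ne (Ne.symm hk) hx, θ_zero _ _ hLx (by omega)]
  have e2 : X.π (2 * (X.dim : ℤ) - i) = X.L ^ (X.dim - i) * (a * θ * b) := by
    apply X.ext_homog
    intro k y hy
    rw [Module.End.mul_apply]
    by_cases hk : k = 2 * (X.dim : ℤ) - i
    · subst hk
      rw [hy, θ_self y hy]
      obtain ⟨x, hx, rfl⟩ := X.hard_surj i hi y hy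
      rw [hθL x hx]
    · rw [X.π_apply_ne (Ne.symm hk) hy, θ_zero k y hy hk, map_zero]
  refine ⟨?_, ?_⟩
  · rw [e1]
    exact X.corr_mul' (r := (i : ℤ) - X.dim) (s := (X.dim : ℤ) - i) (by ring) hθ' hLp
  · rw [e2]
    exact X.corr_mul' (r := (X.dim : ℤ) - i) (s := (i : ℤ) - X.dim) (by ring) hLp hθ'

/-- `B(X)` implies `C(X)` (Kleiman). -/
theorem kunneth_of_lefschetz (h : X.Lefschetz) : X.Kunneth := by
  have key : ∀ i : ℕ, i ≤ X.dim →
      X.π (i : ℤ) ∈ X.corr 0 ∧ X.π (2 * (X.dim : ℤ) - i) ∈ X.corr 0 := by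
    intro i
    induction i using Nat.strong_induction_on with
    | _ i ih =>
      intro hi
      exact kunneth_step X h i hi fun j hj => ih j hj (by omega)
  intro i
  by_cases hout : i < 0 ∨ 2 * (X.dim : ℤ) < i
  · rw [X.π_out i hout]
    exact (X.corr 0).zero_mem
  · push Not at hout
    by_cases hle : i ≤ X.dim
    · obtain ⟨j, rfl⟩ := Int.eq_ofNat_of_zero_le hout.1
      exact (key j (by exact_mod_cast hle)).1
    · obtain ⟨j, hj⟩ := Int.eq_ofNat_of_zero_le (a := 2 * (X.dim : ℤ) - i) (by omega)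
      have h1 := (key j (by omega)).2
      rwa [show 2 * (X.dim : ℤ) - j = i by omega] at h1

/-- `C(X)` implies the sign conjecture for `X`. -/
theorem cplus_of_kunneth (h : X.Kunneth) : X.CPlus :=
  X.corr_sum _ _ fun i _ => h i

end Pool.Agent.Helper29.CPB
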